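import Pool.Agent.N630.PP.Cub
import Pool.Agent.N874.PP.Gal

/-!
Project PP, part GP: points of order two on `y ^ 2 = x ^ 3 + A x + B`.
-/

set_option autoImplicit false
set_option linter.all false

open Polynomial WeierstrassCurve WeierstrassCurve.Affine
open Pool.Agent.TH115.GD
open scoped Classical

namespace Pool.Agent.N630.PP

open Pool.Agent.N874.PP

section basic

variable {K Ω : Type} [Field K] [Field Ω] [Algebra K Ω] {A B : K}

theorem isS (h6 : (6 : K) ≠ 0) (hd : 4 * A ^ 3 + 27 * B ^ 2 ≠ 0) :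
    IsS ((sW A B).baseChange Ω).toAffine (algebraMap K Ω A) (algebraMap K Ω B) := by
  refine ⟨?_, ?_, ?_, ?_, ?_, ?_, ?_⟩
  · show algebraMap K Ω 0 = 0
    exact map_zero _
  · show algebraMap K Ω 0 = 0
    exact map_zero _
  · show algebraMap K Ω 0 = 0
    exact map_zero _
  · rfl
  · rfl
  · intro h2
    have : algebraMap K Ω 2 = 0 := by rw [map_ofNat]; exact h2
    rw [map_eq_zero] at this
    apply h6
    have e : (6 : K) = 2 * 3 := by norm_num
    rw [e, this, zero_mul]
  · intro h0
    apply hd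
    have : algebraMap K Ω (4 * A ^ 3 + 27 * B ^ 2) = 0 := by
      simp only [map_add, map_mul, map_pow, map_ofNat]
      exact h0
    exact (map_eq_zero _).1 this

/-- points of order two -/
theorem tor_cases (h6 : (6 : K) ≠ 0) (hd : 4 * A ^ 3 + 27 * B ^ 2 ≠ 0) (T : Pt (sW A B) Ω)
    (hT : (2 : ℕ) • T = 0) :
    T = 0 ∨ ∃ (e : Ω) (h : _), T = Point.some e 0 h ∧ Rt A B e := by
  rcases T with _ | ⟨x, y, hxy⟩
  · exact Or.inl rfl
  right
  rw [two_nsmul] at hT
  have hy := (add_self_eq_zero_iff (isS h6 hd) hxy).1 hT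
  subst hy
  refine ⟨x, hxy, rfl, ?_⟩
  have := (isS (Ω := Ω) h6 hd).nonsingular.1 hxy
  show x ^ 3 + algebraMap K Ω A * x + algebraMap K Ω B = 0
  rw [← this]
  ring

theorem two_smul_tor (h6 : (6 : K) ≠ 0) (hd : 4 * A ^ 3 + 27 * B ^ 2 ≠ 0) {e : Ω} (h) :
    (2 : ℕ) • (Point.some e 0 h : Pt (sW A B) Ω) = 0 := by
  rw [two_nsmul]
  exact (add_self_eq_zero_iff (isS h6 hd) h).2 rfl

theorem ex_tor (h6 : (6 : K) ≠ 0) (hd : 4 * A ^ 3 + 27 * B ^ 2 ≠ 0) {e : Ω} (he : Rt A B e) :
    ((sW A B).baseChange Ω).toAffine.Nonsingular e 0 := by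
  rw [(isS (Ω := Ω) h6 hd).nonsingular]
  have : e ^ 3 + algebraMap K Ω A * e + algebraMap K Ω B = 0 := he
  rw [this]
  ring

theorem sg_zero (t : Ω) : sg (0 : Pt (sW A B) Ω) t = 1 := by
  unfold sg
  exact if_pos (Or.inl rfl)

theorem sg_self {e : Ω} (h) : sg (Point.some e 0 h : Pt (sW A B) Ω) e = 1 := by
  unfold sg
  exact if_pos (Or.inr ⟨h, rfl⟩)

theorem sg_ne {e t : Ω} (h) (hne : e ≠ t) : sg (Point.some e 0 h : Pt (sW A B) Ω) t = -1 := by
  unfold sg
  apply if_neg
  rintro (h0 | ⟨h', h0⟩)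
  · exact Point.some_ne_zero _ h0
  · apply hne
    injection h0

end basic

theorem gp1 : S_GP1 := by
  intro K Ω _ _ _ A B h6 hd R hR
  rcases R with _ | ⟨x, y, hxy⟩
  · exact absurd (nsmul_zero 2) hR
  have hS := isS (Ω := Ω) h6 hd
  have hy : y ≠ 0 := by
    rintro rfl
    exact hR (two_smul_tor h6 hd hxy)
  obtain ⟨X, Y, hQ, h1, h2⟩ := double hS hxy hy
  refine ⟨X, Y, hQ, ?_, fun t ht => h2 t ht⟩
  rw [two_nsmul]
  exact h1

theorem gp2 : S_GP2 := by
  intro K Ω _ _ _ A B h6 hd R T hR hT t ht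
  have hS := isS (Ω := Ω) h6 hd
  rcases tor_cases h6 hd T hT with rfl | ⟨e, he, rfl, hre⟩
  · rw [add_zero, sg_zero, one_mul]
  rcases R with _ | ⟨x, y, hxy⟩
  · exact absurd (nsmul_zero 2) hR
  have hy : y ≠ 0 := by
    rintro rfl
    exact hR (two_smul_tor h6 hd hxy)
  have hre' : e ^ 3 + algebraMap K Ω A * e + algebraMap K Ω B = 0 := hre
  have ht' : t ^ 3 + algebraMap K Ω A * t + algebraMap K Ω B = 0 := ht
  obtain ⟨hxe, hQ, hadd⟩ := add_tor hS hxy hy he hre'
  have hder := hS.der hre'
  have h2 := hS.two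
  rw [hadd]
  by_cases hte : e = t
  · subst hte
    rw [sg_self, one_mul]
    simp only [rr]
    generalize 3 * e ^ 2 + algebraMap K Ω A = D at *
    field_simp
    ring
  · rw [sg_ne _ hte]
    simp only [rr]
    obtain ⟨ha, hb⟩ := rel2 hre' ht' hte
    generalize algebraMap K Ω A = a at *
    generalize algebraMap K Ω B = b at *
    subst ha
    have e1 : 3 * e ^ 2 + -(e ^ 2 + e * t + t ^ 2) = (e - t) * (2 * e + t) := by ring
    have e2 : 3 * t ^ 2 + -(e ^ 2 + e * t + t ^ 2) = (t - e) * (2 * t + e) := by ring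
    rw [e1] at hder ⊢
    rw [e2]
    have h3 : e - t ≠ 0 := sub_ne_zero.2 hte
    have h4 : 2 * e + t ≠ 0 := fun h => hder (by rw [h, mul_zero])
    have e3 : e + (e - t) * (2 * e + t) / (x - e) - t = (e - t) * (x + e + t) / (x - e) := by
      field_simp
      ring
    have e4 : ((e - t) * (x + e + t) / (x - e)) ^ 2 - (t - e) * (2 * t + e) =
        (e - t) * (2 * e + t) * ((x - t) ^ 2 - (t - e) * (2 * t + e)) / (x - e) ^ 2 := by
      field_simp
      ring
    rw [e3, e4]
    generalize (e - t) * (2 * e + t) = D at *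
    generalize (x - t) ^ 2 - (t - e) * (2 * t + e) = N at *
    field_simp

theorem gp3 : S_GP3 := by
  intro K Ω _ _ _ A B h6 hd t₁ t₂ t₃ h1 h2 h3 h12 h13 h23
  have hS := isS (Ω := Ω) h6 hd
  have h1' : t₁ ^ 3 + algebraMap K Ω A * t₁ + algebraMap K Ω B = 0 := h1
  have h2' : t₂ ^ 3 + algebraMap K Ω A * t₂ + algebraMap K Ω B = 0 := h2
  have h3' : t₃ ^ 3 + algebraMap K Ω A * t₃ + algebraMap K Ω B = 0 := h3
  have e3 := rel3 h1' h2' h3' h12 h13 h23
  have hall : ∀ x : Ω, Rt A B x → x = t₁ ∨ x = t₂ ∨ x = t₃ := by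
    intro x hx
    have := rel4 h1' h2' h12 hx
    rwa [← e3] at this
  have hne1 : (1 : Ω) ≠ -1 := by
    intro h
    apply hS.two
    linear_combination h
  refine ⟨?_, ?_, ?_, ?_⟩
  · intro T hT
    rcases tor_cases h6 hd T hT with rfl | ⟨e, he, rfl, hre⟩
    · simp only [sg_zero, mul_one]
    · rcases hall e hre with rfl | rfl | rfl
      · rw [sg_self, sg_ne _ h12, sg_ne _ h13]; ring
      · rw [sg_self, sg_ne _ h12.symm, sg_ne _ h23]; ring
      · rw [sg_self, sg_ne _ h13.symm, sg_ne _ h23.symm]; ring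
  · intro T T' t hT hT' ht
    rcases tor_cases h6 hd T hT with rfl | ⟨e, he, rfl, hre⟩
    · rw [zero_add, sg_zero, one_mul]
    rcases tor_cases h6 hd T' hT' with rfl | ⟨e', he', rfl, hre'⟩
    · rw [add_zero, sg_zero, mul_one]
    by_cases hee : e = e'
    · subst hee
      have : (Point.some e 0 he : Pt (sW A B) Ω) + Point.some e 0 he' = 0 := by
        have := two_smul_tor (Ω := Ω) h6 hd he
        rwa [two_nsmul] at this
      rw [this, sg_zero]
      by_cases het : e = t
      · subst het
        rw [sg_self, one_mul]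
      · rw [sg_ne _ het]; ring
    · obtain ⟨hQ, hadd⟩ := add_two hS he he' hee hre hre'
      rw [hadd]
      rcases rel4 hre hre' hee ht with rfl | rfl | rfl
      · have hn : -t - e' ≠ t := by
          intro h0
          have hd1 := hS.der (show t ^ 3 + algebraMap K Ω A * t + algebraMap K Ω B = 0 from hre)
          obtain ⟨ha, -⟩ := rel2 hre hre' hee
          apply hd1
          have e1 : e' = -2 * t := by linear_combination -h0
          rw [ha, e1]
          ring
        rw [sg_self, sg_ne _ (Ne.symm hee), sg_ne _ hn]; ring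
      · have hn : -e - t ≠ t := by
          intro h0
          have hd1 := hS.der (show t ^ 3 + algebraMap K Ω A * t + algebraMap K Ω B = 0 from hre')
          obtain ⟨ha, -⟩ := rel2 hre hre' hee
          apply hd1
          have e1 : e = -2 * t := by linear_combination -h0
          rw [ha, e1]
          ring
        rw [sg_self, sg_ne _ hee, sg_ne _ hn]; ring
      · have hn1 : e ≠ -e - e' := by
          intro h0
          have hd1 := hS.der (show e ^ 3 + algebraMap K Ω A * e + algebraMap K Ω B = 0 from hre)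
          obtain ⟨ha, -⟩ := rel2 hre hre' hee
          apply hd1
          have e1 : e' = -2 * e := by linear_combination h0
          rw [ha, e1]
          ring
        have hn2 : e' ≠ -e - e' := by
          intro h0
          have hd1 := hS.der (show e' ^ 3 + algebraMap K Ω A * e' + algebraMap K Ω B = 0 from hre')
          obtain ⟨ha, -⟩ := rel2 hre hre' hee
          apply hd1
          have e1 : e = -2 * e' := by linear_combination h0
          rw [ha, e1]
          ring
        rw [sg_self, sg_ne _ hn1, sg_ne _ hn2]; ring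
  · intro T hT s1 s2 s3
    rcases tor_cases h6 hd T hT with rfl | ⟨e, he, rfl, hre⟩
    · rfl
    · exfalso
      by_cases h : e = t₁
      · subst h
        rw [sg_ne _ h12] at s2
        exact hne1 s2.symm
      · rw [sg_ne _ h] at s1
        exact hne1 s1.symm
  · have key : ∀ e : Ω, Rt A B e → ∃ T : Pt (sW A B) Ω, (2 : ℕ) • T = 0 ∧ sg T e = 1 ∧
        ∀ t, e ≠ t → sg T t = -1 := fun e he =>
      ⟨Point.some e 0 (ex_tor h6 hd he), two_smul_tor h6 hd _, sg_self _, fun t ht => sg_ne _ ht⟩
    rintro ε₁ ε₂ ε₃ (rfl | rfl) (rfl | rfl) (rfl | rfl) hp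
    · exact ⟨0, nsmul_zero 2, sg_zero _, sg_zero _, sg_zero _⟩
    · exact absurd (by linear_combination -hp) hne1
    · exact absurd (by linear_combination -hp) hne1
    · obtain ⟨T, hT, a1, a2⟩ := key t₁ h1
      exact ⟨T, hT, a1, a2 _ h12, a2 _ h13⟩
    · exact absurd (by linear_combination -hp) hne1
    · obtain ⟨T, hT, a1, a2⟩ := key t₂ h2
      exact ⟨T, hT, a2 _ h12.symm, a1, a2 _ h23⟩
    · obtain ⟨T, hT, a1, a2⟩ := key t₃ h3
      exact ⟨T, hT, a2 _ h13.symm, a2 _ h23.symm, a1⟩
    · exact absurd (by linear_combination -hp) hne1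

theorem gp4 : S_GP4 := by
  intro K Ω Ω' _ _ _ _ _ A B φ T t
  constructor
  · unfold sg
    have hiff : (act (sW A B) φ T = 0 ∨ ∃ h, act (sW A B) φ T = Point.some (φ t) 0 h) ↔
        (T = 0 ∨ ∃ h, T = Point.some t 0 h) := by
      rcases T with _ | ⟨x, y, hxy⟩
      · exact ⟨fun _ => Or.inl rfl, fun _ => Or.inl rfl⟩
      · have hh : act (sW A B) φ (Point.some x y hxy) = Point.some (φ x) (φ y)
            (((sW A B).toAffine.baseChange_nonsingular φ.injective x y).2 hxy) := rfl
        rw [hh]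
        constructor
        · rintro (h0 | ⟨h, h0⟩)
          · exact absurd h0 (Point.some_ne_zero _)
          · right
            injection h0 with h1 h2
            have h3 := φ.injective h1
            have h4 : y = 0 := by
              have h5 : φ y = φ 0 := by rw [h2, map_zero]
              exact φ.injective h5
            subst h3
            subst h4
            exact ⟨hxy, rfl⟩
        · rintro (h0 | ⟨h, h0⟩)
          · exact absurd h0 (Point.some_ne_zero _)
          · right
            injection h0 with h1 h2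
            subst h1
            subst h2
            refine ⟨?_, ?_⟩
            · have := ((sW A B).toAffine.baseChange_nonsingular φ.injective x 0).2 hxy
              rwa [map_zero] at this
            · congr 1
              exact map_zero φ
    by_cases h : T = 0 ∨ ∃ h, T = Point.some t 0 h
    · rw [if_pos h, if_pos (hiff.2 h), map_one]
    · rw [if_neg h, if_neg (fun h' => h (hiff.1 h')), map_neg, map_one]
  · rcases T with _ | ⟨x, y, hxy⟩
    · show (0 : Ω') = φ 0
      rw [map_zero]
    · show ((φ x - φ t) ^ 2 - (3 * φ t ^ 2 + algebraMap K Ω' A)) / (2 * φ y) =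
        φ (((x - t) ^ 2 - (3 * t ^ 2 + algebraMap K Ω A)) / (2 * y))
      simp only [map_div₀, map_sub, map_add, map_pow, map_mul, map_ofNat, AlgHom.commutes]

end Pool.Agent.N630.PP
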