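import Mathlib

/-!
Group law formulas for the curves `y ^ 2 = x ^ 3 + a x + b` over a field in which `6 ≠ 0`:
doubling and the functions `((x - t) ^ 2 - (3 t ^ 2 + a)) / (2 y)` attached to the points of order
two. (Adapted from `Pool.Agent.TH115.GD.Curve`.)
-/

set_option autoImplicit false
set_option linter.all false

open WeierstrassCurve WeierstrassCurve.Affine

namespace Pool.Agent.N630.PP

/-- The Weierstrass curve `y ^ 2 = x ^ 3 + a x + b`. -/
structure IsS {F : Type*} [Field F] (W : Affine F) (a b : F) : Prop where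
  a1 : W.a₁ = 0
  a2 : W.a₂ = 0
  a3 : W.a₃ = 0
  a4 : W.a₄ = a
  a6 : W.a₆ = b
  two : (2 : F) ≠ 0
  disc : 4 * a ^ 3 + 27 * b ^ 2 ≠ 0

variable {F : Type*} [Field F] {W : Affine F} {a b : F}

theorem IsS.equation (h : IsS W a b) {x y : F} :
    W.Equation x y ↔ y ^ 2 = x ^ 3 + a * x + b := by
  rw [W.equation_iff, h.a1, h.a2, h.a3, h.a4, h.a6]
  constructor <;> intro h' <;> linear_combination h'

/-- The derivative does not vanish at a root. -/
theorem IsS.der (h : IsS W a b) {x : F} (hx : x ^ 3 + a * x + b = 0) : 3 * x ^ 2 + a ≠ 0 := by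
  intro h0
  have ha : a = -3 * x ^ 2 := by linear_combination h0
  have hb : b = 2 * x ^ 3 := by rw [ha] at hx; linear_combination hx
  apply h.disc
  rw [ha, hb]
  ring

theorem IsS.nonsingular (h : IsS W a b) {x y : F} :
    W.Nonsingular x y ↔ y ^ 2 = x ^ 3 + a * x + b := by
  rw [W.nonsingular_iff, h.equation, h.a1, h.a2, h.a3, h.a4]
  refine ⟨fun h' => h'.1, fun h' => ⟨h', ?_⟩⟩
  by_cases hy : y = 0
  · left
    subst hy
    have h0 : x ^ 3 + a * x + b = 0 := by rw [← h']; ring
    intro hd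
    exact h.der h0 (by linear_combination -hd)
  · right
    intro hd
    have : (2 : F) * y = 0 := by linear_combination hd
    rcases mul_eq_zero.1 this with h2 | h2
    · exact h.two h2
    · exact hy h2

theorem IsS.negY (h : IsS W a b) (x y : F) : W.negY x y = -y := by
  simp [WeierstrassCurve.Affine.negY, h.a1, h.a3]

/-- The relations between two different roots. -/
theorem rel2 {t e : F} (ht : t ^ 3 + a * t + b = 0) (he : e ^ 3 + a * e + b = 0) (hne : t ≠ e) :
    a = -(t ^ 2 + t * e + e ^ 2) ∧ b = t * e * (t + e) := by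
  have h1 : t - e ≠ 0 := sub_ne_zero.2 hne
  have ha : a = -(t ^ 2 + t * e + e ^ 2) := by
    apply mul_left_cancel₀ h1
    linear_combination ht - he
  refine ⟨ha, ?_⟩
  rw [ha] at ht
  linear_combination ht

theorem rel3 {t1 t2 t3 : F} (h1 : t1 ^ 3 + a * t1 + b = 0) (h2 : t2 ^ 3 + a * t2 + b = 0)
    (h3 : t3 ^ 3 + a * t3 + b = 0) (h12 : t1 ≠ t2) (h13 : t1 ≠ t3) (h23 : t2 ≠ t3) :
    t3 = -t1 - t2 := by
  obtain ⟨e1, -⟩ := rel2 h1 h2 h12
  obtain ⟨e2, -⟩ := rel2 h1 h3 h13
  apply mul_left_cancel₀ (sub_ne_zero.2 h23)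
  linear_combination e1 - e2

theorem rel4 {t1 t2 x : F} (h1 : t1 ^ 3 + a * t1 + b = 0) (h2 : t2 ^ 3 + a * t2 + b = 0)
    (h12 : t1 ≠ t2) (hx : x ^ 3 + a * x + b = 0) : x = t1 ∨ x = t2 ∨ x = -t1 - t2 := by
  obtain ⟨e1, e2⟩ := rel2 h1 h2 h12
  have : (x - t1) * ((x - t2) * (x - (-t1 - t2))) = 0 := by
    rw [e1, e2] at hx
    linear_combination hx
  rcases mul_eq_zero.1 this with h | h
  · exact Or.inl (sub_eq_zero.1 h)
  · rcases mul_eq_zero.1 h with h | h
    · exact Or.inr (Or.inl (sub_eq_zero.1 h))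
    · exact Or.inr (Or.inr (sub_eq_zero.1 h))

variable [DecidableEq F]

/-- Addition of a point of order two. -/
theorem add_tor (h : IsS W a b) {x y : F} (hP : W.Nonsingular x y) (hy : y ≠ 0) {e : F}
    (ha : W.Nonsingular e 0) (hr : e ^ 3 + a * e + b = 0) :
    x - e ≠ 0 ∧ ∃ hQ, Point.some x y hP + Point.some e 0 ha =
      Point.some (e + (3 * e ^ 2 + a) / (x - e))
        (-((3 * e ^ 2 + a) * y) / (x - e) ^ 2) hQ := by
  have hxa : x ≠ e := by
    rintro rfl
    apply hy
    have := h.nonsingular.1 hP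
    rw [hr] at this
    exact pow_eq_zero_iff (two_ne_zero) |>.1 this
  have hxa' : x - e ≠ 0 := sub_ne_zero.2 hxa
  refine ⟨hxa', ?_⟩
  rw [Point.add_of_X_ne hxa]
  have he := h.nonsingular.1 hP
  have h1 : W.addX x e (W.slope x e y 0) =
      e + (3 * e ^ 2 + a) / (x - e) := by
    rw [slope_of_X_ne hxa, addX, h.a1, h.a2]
    field_simp
    linear_combination he + hr
  have h2 : W.addY x e y (W.slope x e y 0) =
      -((3 * e ^ 2 + a) * y) / (x - e) ^ 2 := by
    rw [addY, negAddY, h1, slope_of_X_ne hxa, h.negY]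
    field_simp
    ring
  have hh : W.Nonsingular (e + (3 * e ^ 2 + a) / (x - e))
      (-((3 * e ^ 2 + a) * y) / (x - e) ^ 2) := by
    rw [← h1, ← h2]
    exact nonsingular_add hP ha fun hxy => hxa hxy.1
  refine ⟨hh, ?_⟩
  simp only [h1, h2]

theorem add_self_eq_zero_iff (h : IsS W a b) {x y : F} (hP : W.Nonsingular x y) :
    Point.some x y hP + Point.some x y hP = 0 ↔ y = 0 := by
  constructor
  · intro h0
    by_contra hy
    have : y ≠ W.negY x y := by
      rw [h.negY]
      intro h1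
      have : (2 : F) * y = 0 := by linear_combination h1
      rcases mul_eq_zero.1 this with h2 | h2
      · exact h.two h2
      · exact hy h2
    rw [Point.add_self_of_Y_ne this] at h0
    exact Point.some_ne_zero _ h0
  · rintro rfl
    exact Point.add_self_of_Y_eq (by rw [h.negY]; ring)

/-- Doubling. -/
theorem double (h : IsS W a b) {x y : F} (hP : W.Nonsingular x y) (hy : y ≠ 0) :
    ∃ X Y hQ, Point.some x y hP + Point.some x y hP = Point.some X Y hQ ∧
      ∀ t : F, t ^ 3 + a * t + b = 0 →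
        (((x - t) ^ 2 - (3 * t ^ 2 + a)) / (2 * y)) ^ 2 = X - t := by
  have h2y : (2 : F) * y ≠ 0 := mul_ne_zero h.two hy
  have h2 := h.two
  have hne : y ≠ W.negY x y := by
    rw [h.negY]
    intro h1
    apply h2y
    linear_combination h1
  have hs : W.slope x x y y = (3 * x ^ 2 + a) / (2 * y) := by
    rw [slope_of_Y_ne rfl hne, h.negY, h.a1, h.a2, h.a4]
    congr 1 <;> ring
  have he := h.nonsingular.1 hP
  refine ⟨_, _, _, Point.add_self_of_Y_ne hne, fun t ht => ?_⟩
  rw [hs, addX, h.a1, h.a2]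
  field_simp
  linear_combination 4 * (2 * x + t) * he + 4 * (2 * x + t) * ht

/-- Two different points of order two. -/
theorem add_two (h : IsS W a b) {e e' : F} (he : W.Nonsingular e 0) (he' : W.Nonsingular e' 0)
    (hne : e ≠ e') (h1 : e ^ 3 + a * e + b = 0) (h2 : e' ^ 3 + a * e' + b = 0) :
    ∃ hQ, Point.some e 0 he + Point.some e' 0 he' = Point.some (-e - e') 0 hQ := by
  rw [Point.add_of_X_ne hne]
  have hne' : e - e' ≠ 0 := sub_ne_zero.2 hne
  have e1 : W.addX e e' (W.slope e e' 0 0) = -e - e' := by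
    rw [slope_of_X_ne hne, addX, h.a1, h.a2]
    field_simp
    ring
  have e2 : W.addY e e' 0 (W.slope e e' 0 0) = 0 := by
    rw [addY, negAddY, e1, slope_of_X_ne hne, h.negY]
    field_simp
    ring
  have hh : W.Nonsingular (-e - e') 0 := by
    have := nonsingular_add he he' fun hxy => hne hxy.1
    rwa [e1, e2] at this
  refine ⟨hh, ?_⟩
  simp only [e1, e2]

end Pool.Agent.N630.PP
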